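import Pool.Agent.Helper14.TK7.StD

/-!
# Project TK (levels 3·7^n), module LBof: lower bound, assembly

Adapted from `Pool/Agent/Helper89/TH7/M_LBof.lean` and `Pool/Agent/Helper3/TK/M_LBof.lean`.
-/

set_option autoImplicit false

namespace Pool.Agent.Helper7.TK7

open Pool.Agent.Helper14.TK7
open Pool.Agent.Helper76.TK7 (ddK7)
open Pool.Agent.Helper4.TK (KTy SymK LBK evLK OkK)
open Pool.Agent.Helper14.CV (Homog EqC act Tl Tl_add Tl_smul)
open Pool.Agent.Helper28.WK (Tw evw)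
open Pool.Agent.Helper14.W5 (Tw_add Tw_smul)
open Pool.Agent.Helper93.TLE (DDE)

private theorem unit_det {ι : Type} [Fintype ι] [DecidableEq ι] (k1 k2 k3 : ι → ℕ)
    (hinj : ∀ t u, k1 t = k1 u → k2 t = k2 u → k3 t = k3 u → t = u) (M : Matrix ι ι ℤ)
    (hd : ∀ t, ((M t t : ℤ) : ZMod 7) ≠ 0)
    (hM : ∀ t u, ((M t u : ℤ) : ZMod 7) ≠ 0 → k1 u < k1 t ∨
      (k1 u = k1 t ∧ (k2 u < k2 t ∨ (k2 u = k2 t ∧ k3 u ≤ k3 t)))) :
    M.det ≠ 0 := by
  have : Fact (Nat.Prime 7) := ⟨by norm_num⟩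
  intro h0
  have h1 : (M.map (fun x : ℤ => (x : ZMod 7))).det = 0 := by
    have := Int.cast_det (R := ZMod 7) M
    rw [h0] at this
    rw [← this]
    simp
  obtain ⟨v, hv, hz⟩ := Matrix.exists_vecMul_eq_zero_iff.2 h1
  have hne : (Finset.univ.filter fun t => v t ≠ 0).Nonempty := by
    by_contra hc
    rw [Finset.not_nonempty_iff_eq_empty, Finset.filter_eq_empty_iff] at hc
    apply hv
    funext t
    simpa using hc (Finset.mem_univ t)
  obtain ⟨t0, ht0, hmax⟩ := Finset.exists_max_image _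
    (fun t => (toLex (k1 t, toLex (k2 t, k3 t)) : ℕ ×ₗ (ℕ ×ₗ ℕ))) hne
  have hz0 := congrFun hz t0
  rw [Matrix.vecMul, dotProduct] at hz0
  rw [Finset.sum_eq_single t0] at hz0
  · simp only [Matrix.map_apply, Pi.zero_apply] at hz0
    rcases mul_eq_zero.1 hz0 with h | h
    · exact (Finset.mem_filter.1 ht0).2 h
    · exact hd t0 h
  · intro t _ htn
    by_cases hvt : v t = 0
    · rw [hvt, zero_mul]
    · by_cases hm : ((M t t0 : ℤ) : ZMod 7) = 0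
      · simp only [Matrix.map_apply, hm, mul_zero]
      · exfalso
        have h2 := hmax t (Finset.mem_filter.2 ⟨Finset.mem_univ _, hvt⟩)
        simp only [Prod.Lex.le_iff, ofLex_toLex] at h2
        have h3 := hM t t0 hm
        apply htn
        apply hinj
        · omega
        · omega
        · omega
  · intro h
    exact absurd (Finset.mem_univ _) h

/-! ### The values `evK` as linear maps -/

/-- The Hecke operator as a linear map. -/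
private def TlL (l : ℕ) : Module.End ℂ (ℤ → ℤ → ℂ) where
  toFun G := Tl l 1 G
  map_add' G H := Tl_add l 1 G H
  map_smul' s G := Tl_smul s l 1 G

private def eC : Module.End ℂ (ℤ → ℤ → ℂ) :=
  (2 : ℤ) • TlL 2 + (5 : ℤ) • TlL 11 + (5 : ℤ) • TlL 17 + (2 : ℤ) • (TlL 2 * TlL 2)

private def eA : Module.End ℂ (ℤ → ℤ → ℂ) :=
  TlL 2 + (3 : ℤ) • TlL 5 + (2 : ℤ) • TlL 11 + (6 : ℤ) • TlL 13 + (4 : ℤ) • TlL 17 +
    (4 : ℤ) • TlL 19 + TlL 29 + (6 : ℤ) • TlL 37 + TlL 2 * eC + (6 : ℤ) • (TlL 5 * TlL 5)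

private def eB : Module.End ℂ (ℤ → ℤ → ℂ) :=
  TlL 5 + (4 : ℤ) • TlL 11 + (2 : ℤ) • TlL 13 + TlL 31

private def eU : Module.End ℂ (ℤ → ℤ → ℂ) :=
  (4 : ℤ) • 1 + (2 : ℤ) • TlL 2 + (5 : ℤ) • TlL 11 + (4 : ℤ) • TlL 13 + (6 : ℤ) • TlL 19 +
    (3 : ℤ) • TlL 23 + TlL 41 + (6 : ℤ) • (TlL 2 * TlL 2) + (5 : ℤ) • (TlL 2 * TlL 5)

private def eV : Module.End ℂ (ℤ → ℤ → ℂ) :=
  (2 : ℤ) • TlL 2 + (4 : ℤ) • TlL 5 + (5 : ℤ) • TlL 13 + (2 : ℤ) • TlL 17 + (5 : ℤ) • TlL 19 +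
    (6 : ℤ) • TlL 23 + (6 : ℤ) • TlL 29 + (2 : ℤ) • TlL 31 + (4 : ℤ) • TlL 37 + TlL 41 +
    (2 : ℤ) • TlL 43 + (5 : ℤ) • TlL 47 + TlL 2 * eA + TlL 5 * eB + (4 : ℤ) • (TlL 11 * TlL 11)

private def eO (c : ℕ) : Module.End ℂ (ℤ → ℤ → ℂ) :=
  if c = 0 then 1
  else if c = 1 then (2 : ℤ) • 1 + (4 : ℤ) • TlL 2
  else if c = 2 then 1 + (5 : ℤ) • (TlL 2 * TlL 5)
  else if c = 3 then 1 + (5 : ℤ) • TlL 2 + (2 : ℤ) • TlL 5 + (3 : ℤ) • TlL 11 + (3 : ℤ) • (TlL 2 * TlL 2)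
  else if c = 4 then (6 : ℤ) • 1 + TlL 11 + (4 : ℤ) • TlL 29 + (3 : ℤ) • (TlL 2 * TlL 5) +
    (3 : ℤ) • (TlL 2 * (TlL 2 * TlL 2))
  else if c = 5 then (2 : ℤ) • 1 + TlL 2 + (6 : ℤ) • TlL 5 + TlL 11 + (6 : ℤ) • TlL 17 +
    (3 : ℤ) • TlL 19 + (4 : ℤ) • TlL 29 + (2 : ℤ) • TlL 31 + (3 : ℤ) • TlL 37 +
    (3 : ℤ) • (TlL 2 * TlL 5) + (5 : ℤ) • (TlL 2 * TlL 11) + (4 : ℤ) • (TlL 2 * (TlL 2 * TlL 2))
  else if c = 6 then (4 : ℤ) • 1 + (5 : ℤ) • TlL 2 + (3 : ℤ) • TlL 5 + (4 : ℤ) • TlL 13 +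
    (4 : ℤ) • TlL 19 + (3 : ℤ) • TlL 23 + TlL 29 + (3 : ℤ) • TlL 37 +
    (5 : ℤ) • (TlL 2 * TlL 2) + (2 : ℤ) • (TlL 2 * TlL 23) + (4 : ℤ) • (TlL 2 * (TlL 2 * TlL 2))
  else (4 : ℤ) • 1 + (5 : ℤ) • TlL 2 + (3 : ℤ) • TlL 5 + (3 : ℤ) • TlL 11 + (6 : ℤ) • TlL 13 +
    (2 : ℤ) • TlL 17 + (2 : ℤ) • TlL 23 + (4 : ℤ) • TlL 29 + (3 : ℤ) • TlL 31 +
    (4 : ℤ) • (TlL 2 * TlL 2) + (3 : ℤ) • (TlL 2 * TlL 13) + (5 : ℤ) • (TlL 2 * TlL 17) +
    (6 : ℤ) • (TlL 2 * TlL 19) + (5 : ℤ) • (TlL 2 * (TlL 2 * TlL 5))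

/-- The value on the central path. -/
private def dl : (ℤ → ℤ → ℂ) →ₗ[ℂ] ℂ where
  toFun G := G 1 0 - G 0 1
  map_add' G H := by simp only [Pi.add_apply]; ring
  map_smul' s G := by simp only [Pi.smul_apply, smul_eq_mul, RingHom.id_apply]; ring

private theorem coe_eU : (eU : (ℤ → ℤ → ℂ) → (ℤ → ℤ → ℂ)) = UoK 1 := rfl

private theorem coe_eV : (eV : (ℤ → ℤ → ℂ) → (ℤ → ℤ → ℂ)) = VoK 1 := rfl

private theorem coe_eO (c : ℕ) (G : ℤ → ℤ → ℂ) : eO c G = OoK c 1 G := by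
  unfold eO OoK
  split_ifs <;> rfl

private theorem evK_lin (G : ℤ → ℤ → ℂ) (c i j : ℕ) :
    evK 1 G c i j = (dl ∘ₗ (eO c * eU ^ i * eV ^ j)) G := by
  rw [LinearMap.comp_apply, Module.End.mul_apply, Module.End.mul_apply, Module.End.pow_apply,
    Module.End.pow_apply, coe_eU, coe_eV, coe_eO]
  rfl

/-! ### Functions killed by all words -/

private def Ker (K : ℤ → ℤ → ℂ) : Prop := ∀ ls : List ℕ, OkK 7 ls → evw 1 ls K = 0

private theorem Tw_append (ls : List ℕ) (l : ℕ) (G : ℤ → ℤ → ℂ) :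
    Tw 1 (ls ++ [l]) G = Tw 1 ls (Tl l 1 G) := by
  induction ls with
  | nil => rfl
  | cons a ls ih =>
    show Tl a 1 (Tw 1 (ls ++ [l]) G) = Tl a 1 (Tw 1 ls (Tl l 1 G))
    rw [ih]

private theorem Ker.T {K : ℤ → ℤ → ℂ} (h : Ker K) {l : ℕ} (hl : l.Prime) (h5 : l ≠ 7) (h2 : l ≠ 3) :
    Ker (Tl l 1 K) := by
  intro ls hls
  have h1 := h (ls ++ [l]) (fun a ha => by
    rcases List.mem_append.1 ha with h | h
    · exact hls a h
    · rw [List.mem_singleton.1 h]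
      exact ⟨hl, h5, h2⟩)
  simp only [evw, Tw_append] at h1
  exact h1

private theorem Ker.add {K L : ℤ → ℤ → ℂ} (h : Ker K) (h' : Ker L) : Ker (K + L) := by
  intro ls hls
  have h1 := h ls hls
  have h2 := h' ls hls
  simp only [evw] at h1 h2
  simp only [evw, Tw_add, Pi.add_apply]
  linear_combination h1 + h2

private theorem Ker.smul {K : ℤ → ℤ → ℂ} (h : Ker K) (s : ℤ) : Ker (s • K) := by
  intro ls hls
  have h1 := h ls hls
  simp only [evw] at h1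
  simp only [evw, Tw_smul, Pi.smul_apply, ← smul_sub, h1, smul_zero]

private theorem Ker.iter {f : (ℤ → ℤ → ℂ) → (ℤ → ℤ → ℂ)} (hf : ∀ K, Ker K → Ker (f K)) (n : ℕ)
    {K : ℤ → ℤ → ℂ} (h : Ker K) : Ker (f^[n] K) := by
  induction n with
  | zero => exact h
  | succ n ih =>
    rw [Function.iterate_succ_apply']
    exact hf _ ih

private theorem Ker.ev {K : ℤ → ℤ → ℂ} (h : Ker K) (c i j : ℕ) : evK 1 K c i j = 0 := by
  have t : ∀ l : ℕ, l.Prime → l ≠ 7 → l ≠ 3 → ∀ K : ℤ → ℤ → ℂ, Ker K → Ker (Tl l 1 K) :=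
    fun l hl h7 h2 K hK => hK.T hl h7 h2
  have t2 := t 2 (by norm_num) (by norm_num) (by norm_num)
  have t5 := t 5 (by norm_num) (by norm_num) (by norm_num)
  have t11 := t 11 (by norm_num) (by norm_num) (by norm_num)
  have t13 := t 13 (by norm_num) (by norm_num) (by norm_num)
  have t17 := t 17 (by norm_num) (by norm_num) (by norm_num)
  have t19 := t 19 (by norm_num) (by norm_num) (by norm_num)
  have t23 := t 23 (by norm_num) (by norm_num) (by norm_num)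
  have t29 := t 29 (by norm_num) (by norm_num) (by norm_num)
  have t31 := t 31 (by norm_num) (by norm_num) (by norm_num)
  have t37 := t 37 (by norm_num) (by norm_num) (by norm_num)
  have t41 := t 41 (by norm_num) (by norm_num) (by norm_num)
  have t43 := t 43 (by norm_num) (by norm_num) (by norm_num)
  have t47 := t 47 (by norm_num) (by norm_num) (by norm_num)
  have hC : ∀ K : ℤ → ℤ → ℂ, Ker K → Ker (CoK 1 K) := fun K hK =>
    (((((t2 K hK).smul 2).add ((t11 K hK).smul 5)).add ((t17 K hK).smul 5)).add ((t2 _ (t2 K hK)).smul 2))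
  have hA : ∀ K : ℤ → ℤ → ℂ, Ker K → Ker (AoK 1 K) := fun K hK =>
    ((((((((((t2 K hK).add ((t5 K hK).smul 3)).add ((t11 K hK).smul 2)).add ((t13 K hK).smul 6)).add ((t17 K hK).smul 4)).add ((t19 K hK).smul 4)).add (t29 K hK)).add ((t37 K hK).smul 6)).add (t2 _ (hC K hK))).add ((t5 _ (t5 K hK)).smul 6))
  have hB : ∀ K : ℤ → ℤ → ℂ, Ker K → Ker (BoK 1 K) := fun K hK =>
    ((((t5 K hK).add ((t11 K hK).smul 4)).add ((t13 K hK).smul 2)).add (t31 K hK))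
  have hU : ∀ K : ℤ → ℤ → ℂ, Ker K → Ker (UoK 1 K) := fun K hK =>
    (((((((((hK.smul 4).add ((t2 K hK).smul 2)).add ((t11 K hK).smul 5)).add ((t13 K hK).smul 4)).add ((t19 K hK).smul 6)).add ((t23 K hK).smul 3)).add (t41 K hK)).add ((t2 _ (t2 K hK)).smul 6)).add ((t2 _ (t5 K hK)).smul 5))
  have hV : ∀ K : ℤ → ℤ → ℂ, Ker K → Ker (VoK 1 K) := fun K hK =>
    ((((((((((((((((t2 K hK).smul 2).add ((t5 K hK).smul 4)).add ((t13 K hK).smul 5)).add ((t17 K hK).smul 2)).add ((t19 K hK).smul 5)).add ((t23 K hK).smul 6)).add ((t29 K hK).smul 6)).add ((t31 K hK).smul 2)).add ((t37 K hK).smul 4)).add (t41 K hK)).add ((t43 K hK).smul 2)).add ((t47 K hK).smul 5)).add (t2 _ (hA K hK))).add (t5 _ (hB K hK))).add ((t11 _ (t11 K hK)).smul 4))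
  have hO : ∀ K : ℤ → ℤ → ℂ, Ker K → Ker (OoK c 1 K) := by
    intro K hK
    unfold OoK
    split_ifs
    · exact hK
    · exact ((hK.smul 2).add ((t2 K hK).smul 4))
    · exact (hK.add ((t2 _ (t5 K hK)).smul 5))
    · exact ((((hK.add ((t2 K hK).smul 5)).add ((t5 K hK).smul 2)).add ((t11 K hK).smul 3)).add ((t2 _ (t2 K hK)).smul 3))
    · exact (((((hK.smul 6).add (t11 K hK)).add ((t29 K hK).smul 4)).add ((t2 _ (t5 K hK)).smul 3)).add ((t2 _ (t2 _ (t2 K hK))).smul 3))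
    · exact ((((((((((((hK.smul 2).add (t2 K hK)).add ((t5 K hK).smul 6)).add (t11 K hK)).add ((t17 K hK).smul 6)).add ((t19 K hK).smul 3)).add ((t29 K hK).smul 4)).add ((t31 K hK).smul 2)).add ((t37 K hK).smul 3)).add ((t2 _ (t5 K hK)).smul 3)).add ((t2 _ (t11 K hK)).smul 5)).add ((t2 _ (t2 _ (t2 K hK))).smul 4))
    · exact (((((((((((hK.smul 4).add ((t2 K hK).smul 5)).add ((t5 K hK).smul 3)).add ((t13 K hK).smul 4)).add ((t19 K hK).smul 4)).add ((t23 K hK).smul 3)).add (t29 K hK)).add ((t37 K hK).smul 3)).add ((t2 _ (t2 K hK)).smul 5)).add ((t2 _ (t23 K hK)).smul 2)).add ((t2 _ (t2 _ (t2 K hK))).smul 4))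
    · exact ((((((((((((((hK.smul 4).add ((t2 K hK).smul 5)).add ((t5 K hK).smul 3)).add ((t11 K hK).smul 3)).add ((t13 K hK).smul 6)).add ((t17 K hK).smul 2)).add ((t23 K hK).smul 2)).add ((t29 K hK).smul 4)).add ((t31 K hK).smul 3)).add ((t2 _ (t2 K hK)).smul 4)).add ((t2 _ (t13 K hK)).smul 3)).add ((t2 _ (t17 K hK)).smul 5)).add ((t2 _ (t19 K hK)).smul 6)).add ((t2 _ (t2 _ (t5 K hK))).smul 5))
  have h1 := hO _ (Ker.iter hU i (Ker.iter hV j h)) [] (fun a ha => absurd ha List.not_mem_nil)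
  exact h1

/-- The third coordinate of the order. -/
private def oK (c : ℕ) : ℕ := if c = 7 then 0 else c

private theorem core (r s N n : ℕ) (I : Finset (ℕ × ℕ × ℕ))
    (hI : ∀ t ∈ I, t.1 ≤ 7 ∧ aaK t.1 + t.2.1 + 7 * t.2.2 < 7 ^ r ∧ abK t.1 + t.2.1 + t.2.2 < 7 ^ s)
    (hN : I.card = N) (hn : r + (s + 1) = n) (hTri : TTri) (hLif : TLif) (hUnb : TUnb) :
    ∃ G : Fin N → (ℤ → ℤ → ℂ), (∀ k, SymK 7 0 n (G k)) ∧
      LinearIndependent ℂ (fun k => evLK 7 (G k)) := by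
  have h1 : ∀ t : I, ∃ (G : ℤ → ℤ → ℂ) (m : ℕ → ℕ → ℕ → ℤ), SymK 7 0 n G ∧
      (∀ c i j, evK 1 G c i j = ((m c i j : ℤ) : ℂ)) ∧
      (((m t.1.1 t.1.2.1 t.1.2.2 : ℤ) : ZMod 7) ≠ 0) ∧
      ∀ c i j, c ≤ 7 → aaK c + i + 7 * j < 7 ^ r → (((m c i j : ℤ) : ZMod 7) ≠ 0 →
        (dgK c i j < dgK t.1.1 t.1.2.1 t.1.2.2 ∨
          (dgK c i j = dgK t.1.1 t.1.2.1 t.1.2.2 ∧
            (rhK c i j < rhK t.1.1 t.1.2.1 t.1.2.2 ∨
              (rhK c i j = rhK t.1.1 t.1.2.1 t.1.2.2 ∧ oK c ≤ oK t.1.1))))) := by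
    intro t
    obtain ⟨hc, ha, hb⟩ := hI t.1 t.2
    obtain ⟨g, hg, hg1, hg2⟩ := hTri r s t.1.1 t.1.2.1 t.1.2.2 hc ha hb
    obtain ⟨G, hG, hGe⟩ := hLif r s g hg
    obtain ⟨hS, hE⟩ := hUnb r (s + 1) G hG
    refine ⟨_, fun c i j => evK (7 ^ r) G c i j, hn ▸ hS, hE, ?_, ?_⟩
    · show ((evK (7 ^ r) G t.1.1 t.1.2.1 t.1.2.2 : ℤ) : ZMod 7) ≠ 0
      rw [hGe]
      exact hg1
    · intro c i j hc' ha' hij
      have h2 := hg2 c i j hc' ha' (by
        rw [← hGe]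
        exact hij)
      rcases h2 with h2 | ⟨h2, h3 | ⟨h3, h4⟩⟩
      · exact Or.inl h2
      · exact Or.inr ⟨h2, Or.inl h3⟩
      · refine Or.inr ⟨h2, Or.inr ⟨h3, ?_⟩⟩
        rcases h4 with h4 | ⟨h4, h5⟩
        · rw [h4]
        · rw [h4, h5]
          decide
  choose G m hS hE hd hM using h1
  let M : Matrix I I ℤ := fun t u => m t u.1.1 u.1.2.1 u.1.2.2
  have hdet : M.det ≠ 0 := by
    refine unit_det (fun t : I => dgK t.1.1 t.1.2.1 t.1.2.2)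
      (fun t : I => rhK t.1.1 t.1.2.1 t.1.2.2) (fun t : I => oK t.1.1) ?_ M
      (fun t => hd t) (fun t u htu => hM t _ _ _ (hI u.1 u.2).1 (hI u.1 u.2).2.1 htu)
    intro t u h2 h3 h4
    have h6 : dgK t.1.1 t.1.2.1 t.1.2.2 = dgK u.1.1 u.1.2.1 u.1.2.2 := h2
    have h7 : rhK t.1.1 t.1.2.1 t.1.2.2 = rhK u.1.1 u.1.2.1 u.1.2.2 := h3
    have h5 : t.1.1 = u.1.1 := by
      have h8 : oK t.1.1 = oK u.1.1 := h4
      have e7 : aaK 7 + abK 7 = 7 := by decide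
      have e0 : aaK 0 + abK 0 = 0 := by decide
      unfold oK at h8
      unfold dgK at h6
      split_ifs at h8 with h9 h10 h10
      · rw [h9, h10]
      · exfalso
        rw [h9, ← h8, e7, e0] at h6
        omega
      · exfalso
        rw [h10, h8, e7, e0] at h6
        omega
      · exact h8
    unfold dgK at h6
    unfold rhK at h7
    rw [h5] at h6 h7
    apply Subtype.ext
    apply Prod.ext
    · exact h5
    · apply Prod.ext
      · omega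
      · omega
  have hdetC : (M.map (fun x : ℤ => (x : ℂ))).det ≠ 0 := by
    have := Int.cast_det (R := ℂ) M
    rw [← this]
    exact_mod_cast hdet
  have hli : LinearIndependent ℂ (fun t : I => evLK 7 (G t)) := by
    rw [Fintype.linearIndependent_iff]
    intro g hg
    have hH : evLK 7 (∑ t, g t • G t) = 0 := by
      rw [map_sum]
      simp only [map_smul]
      exact hg
    have hker : Ker (∑ t, g t • G t) := by
      intro ls hls
      have h2 := congrFun hH ls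
      have h3 : evLK 7 (∑ t, g t • G t) ls = evw 1 ls (∑ t, g t • G t) := if_pos hls
      rw [h3] at h2
      exact h2
    have hrel : Matrix.vecMul g (M.map (fun x : ℤ => (x : ℂ))) = 0 := by
      funext u
      have h2 := hker.ev u.1.1 u.1.2.1 u.1.2.2
      rw [evK_lin, map_sum] at h2
      simp only [map_smul, ← evK_lin, hE, smul_eq_mul] at h2
      exact h2
    exact fun t => congrFun (Matrix.eq_zero_of_vecMul_eq_zero hdetC hrel) t
  let e : Fin N ≃ I := (I.equivFinOfCardEq hN).symm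
  exact ⟨fun k => G (e k), fun k => hS (e k), hli.comp e e.injective⟩

theorem hLBof : TLBof := by
  intro hTri hLif hUnb hCnt n hn
  rcases Nat.even_or_odd' n with ⟨k, hk | hk⟩
  · subst hk
    refine core k (k - 1) _ _ _ ?_ (hCnt.1 k (by omega)) (by omega) hTri hLif hUnb
    intro t ht
    have h1 := Finset.mem_filter.1 ht
    have h2 := (Finset.mem_product.1 h1.1).1
    exact ⟨Nat.lt_succ_iff.1 (Finset.mem_range.1 h2), h1.2⟩
  · subst hk
    refine core k k _ _ _ ?_ (hCnt.2 k (by omega)) (by omega) hTri hLif hUnb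
    intro t ht
    have h1 := Finset.mem_filter.1 ht
    have h2 := (Finset.mem_product.1 h1.1).1
    exact ⟨Nat.lt_succ_iff.1 (Finset.mem_range.1 h2), h1.2⟩

end Pool.Agent.Helper7.TK7
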